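import Pool.Agent.H22.AN.TB3

/-!
# ALG: linear algebra for two normal vectors
-/

set_option autoImplicit false

namespace Pool.Agent.H7.AN

open MeasureTheory Metric Set Filter Topology Pool.Agent.H87.SN Pool.Agent.H87.SH Pool.Agent.H87.AX
  Pool.Agent.H22.AN
open scoped ContDiff RealInnerProductSpace ENNReal

noncomputable section

private theorem inner_V {d : ℕ} (x y : V d) :
    ⟪x, y⟫ = x 0 * y 0 + x 1 * y 1 + ⟪zp x, zp y⟫ := by
  rw [PiLp.inner_apply, PiLp.inner_apply, Fin.sum_univ_succ, Fin.sum_univ_succ, ← add_assoc]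
  simp [zp, mul_comm]

private theorem zp_sub {d : ℕ} (x y : V d) : zp (x - y) = zp x - zp y := by
  ext i
  simp [zp]

/-- the vector which is small -/
private def nn {d : ℕ} (s0 s1 : E d) (ν : V d) : E d := zp ν + ν 0 • s0 + ν 1 • s1

/-- the horizontal distances to the graph -/
private def D0 {d : ℕ} (y0 : ℝ) (s0 : E d) (x : V d) : ℝ := x 0 - (y0 + ⟪s0, zp x⟫)

private def D1 {d : ℕ} (y1 : ℝ) (s1 : E d) (x : V d) : ℝ := x 1 - (y1 + ⟪s1, zp x⟫)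

private theorem diff {d : ℕ} (ν x x' : V d) (y0 y1 : ℝ) (s0 s1 : E d) :
    ⟪x - x', ν⟫ = ν 0 * (D0 y0 s0 x - D0 y0 s0 x') + ν 1 * (D1 y1 s1 x - D1 y1 s1 x') +
      ⟪nn s0 s1 ν, zp x - zp x'⟫ := by
  rw [inner_V, zp_sub, nn, inner_add_left, inner_add_left, real_inner_smul_left,
    real_inner_smul_left, inner_sub_right, inner_sub_right, inner_sub_right, inner_sub_left,
    real_inner_comm (zp ν) (zp x), real_inner_comm (zp ν) (zp x')]
  show (x 0 - x' 0) * ν 0 + (x 1 - x' 1) * ν 1 + _ = _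
  unfold D0 D1
  ring

/-- Cauchy-Schwarz in the plane -/
private theorem cs {a b x y η : ℝ} (h : a ^ 2 + b ^ 2 ≤ 1) (hη : 0 ≤ η) (hx : x ^ 2 + y ^ 2 ≤ η ^ 2) :
    |a * x + b * y| ≤ η := by
  refine abs_le_of_sq_le_sq ?_ hη
  nlinarith [sq_nonneg (a * y - b * x), sq_nonneg x, sq_nonneg y, mul_nonneg
    (sub_nonneg.2 h) (add_nonneg (sq_nonneg x) (sq_nonneg y))]

private theorem norm_le_sum {d : ℕ} (n : E d) {B : ℝ} (h : ∀ i, |n i| ≤ B) : ‖n‖ ≤ d * B := by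
  have h1 : ‖n‖ ≤ ∑ i, |n i| := by
    rw [EuclideanSpace.norm_eq]
    refine Real.sqrt_le_iff.2 ⟨Finset.sum_nonneg fun i _ => abs_nonneg _, ?_⟩
    have h2 : ∑ i, ‖n i‖ ^ 2 ≤ ∑ i, |n i| * ∑ j, |n j| := by
      refine Finset.sum_le_sum fun i _ => ?_
      rw [sq, Real.norm_eq_abs]
      exact mul_le_mul_of_nonneg_left
        (Finset.single_le_sum (f := fun j => |n j|) (fun j _ => abs_nonneg _) (Finset.mem_univ i))
        (abs_nonneg _)
    rwa [← Finset.sum_mul, ← sq] at h2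
  refine h1.trans ((Finset.sum_le_card_nsmul _ _ B fun i _ => h i).trans ?_)
  rw [Finset.card_univ, Fintype.card_fin, nsmul_eq_mul]

/-- the small vector is small -/
private theorem nn_le {d : ℕ} (n : E d) {t η : ℝ} (ht : 0 < t)
    (hC : 4 * (d : ℝ) * η ≤ t) (p : Fin d → E d) (h : ∀ i, |⟪n, p i⟫| ≤ 4 * η)
    (hp : ∀ i, ‖p i - t • bv i‖ ≤ 2 * η) : ‖n‖ ≤ 8 * d * (η / t) := by
  have h1 : ∀ i, |n i| ≤ (4 * η + 2 * η * ‖n‖) / t := by
    intro i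
    rw [le_div_iff₀ ht]
    have h2 : t * n i = ⟪n, p i⟫ - ⟪n, p i - t • bv i⟫ := by
      rw [inner_sub_right, real_inner_smul_right]
      have h3 : ⟪n, bv i⟫ = n i := by
        unfold bv
        rw [EuclideanSpace.inner_single_right]
        simp
      rw [h3]
      ring
    have h4 : |⟪n, p i - t • bv i⟫| ≤ ‖n‖ * (2 * η) :=
      (abs_real_inner_le_norm _ _).trans (mul_le_mul_of_nonneg_left (hp i) (norm_nonneg _))
    have h5 : |n i| * t = |t * n i| := by rw [abs_mul, abs_of_pos ht, mul_comm]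
    rw [h5, h2]
    have h6 := abs_sub (⟪n, p i⟫) (⟪n, p i - t • bv i⟫)
    linarith [h i]
  have h7 := norm_le_sum n h1
  have h8 : (d : ℝ) * ((4 * η + 2 * η * ‖n‖) / t) = 4 * d * (η / t) + (2 * d * η / t) * ‖n‖ := by
    field_simp
  have h9 : 2 * (d : ℝ) * η / t ≤ 1 / 2 := by
    rw [div_le_iff₀ ht]
    linarith
  have h10 : (2 * (d : ℝ) * η / t) * ‖n‖ ≤ 1 / 2 * ‖n‖ :=
    mul_le_mul_of_nonneg_right h9 (norm_nonneg _)
  rw [h8] at h7
  linarith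

/-- the system of two equations -/
private theorem two {a b c e p q r X Y : ℝ} (h1 : a ^ 2 + b ^ 2 + p = 1) (h2 : c ^ 2 + e ^ 2 + q = 1)
    (h3 : a * c + b * e + r = 0) (hp0 : 0 ≤ p) (hp : p ≤ 1 / 64) (hq0 : 0 ≤ q) (hq : q ≤ 1 / 64)
    (hr : |r| ≤ 1 / 64) : X ^ 2 + Y ^ 2 ≤ 1.05 * ((a * X + b * Y) ^ 2 + (c * X + e * Y) ^ 2) := by
  have hab : a ^ 2 + b ^ 2 = 1 - p := by linarith
  have hce : c ^ 2 + e ^ 2 = 1 - q := by linarith
  have hac : a * c + b * e = -r := by linarith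
  have hdet : (a * e - b * c) ^ 2 = (1 - p) * (1 - q) - r ^ 2 := by
    rw [← hab, ← hce]
    have h4 : r ^ 2 = (a * c + b * e) ^ 2 := by rw [hac]; ring
    rw [h4]
    ring
  generalize hM : a * X + b * Y = M
  generalize hN : c * X + e * Y = N
  have hkey : (a * e - b * c) ^ 2 * (X ^ 2 + Y ^ 2) =
      (1 - q) * M ^ 2 + (1 - p) * N ^ 2 + 2 * r * (M * N) := by
    have h4 : r = -(a * c + b * e) := by linarith
    rw [← hce, ← hab, h4, ← hM, ← hN]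
    ring
  have hr2 : r ^ 2 ≤ 1 / 4096 := by
    rw [← sq_abs]
    nlinarith [abs_nonneg r]
  have hd : 15 / 16 ≤ (a * e - b * c) ^ 2 ∧ 1.016 / 1.05 ≤ (a * e - b * c) ^ 2 := by
    rw [hdet]
    have h5 := mul_nonneg hp0 hq0
    constructor
    · nlinarith
    · norm_num
      nlinarith
  have hMN : 2 * r * (M * N) ≤ 1 / 64 * (M ^ 2 + N ^ 2) := by
    have h6 := abs_le.1 hr
    nlinarith [sq_nonneg (M + N), sq_nonneg (M - N), h6.1, h6.2,
      mul_nonneg (sub_nonneg.2 h6.2) (sq_nonneg (M + N)),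
      mul_nonneg (by linarith [h6.1] : 0 ≤ r + 1 / 64) (sq_nonneg (M - N))]
  have hle : (a * e - b * c) ^ 2 * (X ^ 2 + Y ^ 2) ≤ 1.016 * (M ^ 2 + N ^ 2) := by
    rw [hkey]
    nlinarith [mul_nonneg hp0 (sq_nonneg N), mul_nonneg hq0 (sq_nonneg M), sq_nonneg M, sq_nonneg N]
  have hS : 0 ≤ X ^ 2 + Y ^ 2 := by positivity
  have h7 : 1.016 / 1.05 * (X ^ 2 + Y ^ 2) ≤ 1.016 * (M ^ 2 + N ^ 2) :=
    (mul_le_mul_of_nonneg_right hd.2 hS).trans hle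
  have h8 : X ^ 2 + Y ^ 2 = 1.05 / 1.016 * (1.016 / 1.05 * (X ^ 2 + Y ^ 2)) := by
    ring
  rw [h8]
  have h9 : 1.05 * (M ^ 2 + N ^ 2) = 1.05 / 1.016 * (1.016 * (M ^ 2 + N ^ 2)) := by ring
  rw [h9]
  exact mul_le_mul_of_nonneg_left h7 (by norm_num)

theorem pf_ALG : Pool.Agent.H22.AN.T_ALG := by
  intro d
  have hd0 : (0 : ℝ) ≤ d := Nat.cast_nonneg d
  have hCbig : 64 * (d : ℝ) + 8 ≤ 5 * (2 + 72 * (d : ℝ)) ^ 2 := by nlinarith
  refine ⟨5 * (2 + 72 * (d : ℝ)) ^ 2, by linarith, ?_⟩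
  intro a ν₁ ν₂ y0 y1 s0 s1 c z' t η hON ht ht1 hη hCη hsm hca hcd hcz hczi
  set C : ℝ := 5 * (2 + 72 * (d : ℝ)) ^ 2 with hCdef
  have hC0 : 0 < C := by linarith
  obtain ⟨hν1, hν2, hν12⟩ := hON
  have hηt : η ≤ t := by
    have h : 1 * η ≤ C * η := mul_le_mul_of_nonneg_right (by linarith) hη
    linarith
  have hηt' : η / t ≤ 1 / C := by
    rw [div_le_div_iff₀ ht hC0]
    linarith
  have hηt0 : 0 ≤ η / t := div_nonneg hη ht.le
  -- unit vectors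
  have hun : ∀ ν : V d, ‖ν‖ = 1 → (ν 0) ^ 2 + (ν 1) ^ 2 + ‖zp ν‖ ^ 2 = 1 := by
    intro ν h
    have h1 := inner_V ν ν
    rw [real_inner_self_eq_norm_sq, real_inner_self_eq_norm_sq, h] at h1
    linarith
  have hun' : ∀ ν : V d, ‖ν‖ = 1 → (ν 0) ^ 2 + (ν 1) ^ 2 ≤ 1 := by
    intro ν h
    have h1 := hun ν h
    nlinarith [sq_nonneg ‖zp ν‖]
  have hD : ∀ o, (D0 y0 s0 (c o)) ^ 2 + (D1 y1 s1 (c o)) ^ 2 ≤ η ^ 2 := hcd
  -- the small vectors
  have hn : ∀ ν : V d, ‖ν‖ = 1 → (∀ o, |⟪c o - a, ν⟫| ≤ η) → ‖nn s0 s1 ν‖ ≤ 8 * d * (η / t) := by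
    intro ν hν h
    refine nn_le _ ht ?_ (fun i => zp (c (some i)) - zp (c none)) (fun i => ?_) (fun i => ?_)
    · have h1 : 4 * (d : ℝ) * η ≤ C * η := mul_le_mul_of_nonneg_right (by linarith) hη
      linarith
    · have h1 := diff ν (c (some i)) (c none) y0 y1 s0 s1
      have h2 : ⟪c (some i) - c none, ν⟫ = ⟪c (some i) - a, ν⟫ - ⟪c none - a, ν⟫ := by
        rw [← inner_sub_left]
        congr 1
        abel
      have h3 := cs (hun' ν hν) hη (hD (some i))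
      have h4 := cs (hun' ν hν) hη (hD none)
      have h5 := h (some i)
      have h6 := h none
      rw [h2] at h1
      rw [abs_le] at h3 h4 h5 h6 ⊢
      constructor <;> linarith [h3.1, h3.2, h4.1, h4.2, h5.1, h5.2, h6.1, h6.2]
    · have h1 : zp (c (some i)) - zp (c none) - t • bv i =
          (zp (c (some i)) - (z' + t • bv i)) - (zp (c none) - z') := by abel
      rw [h1]
      exact (norm_sub_le _ _).trans (by linarith [hczi i, hcz])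
  have hab : ∀ ν : V d, ‖ν‖ = 1 → |ν 0| ≤ 1 ∧ |ν 1| ≤ 1 := by
    intro ν hν
    have h1 := hun' ν hν
    constructor
    · exact abs_le_of_sq_le_sq (by nlinarith [sq_nonneg (ν 1)]) zero_le_one
    · exact abs_le_of_sq_le_sq (by nlinarith [sq_nonneg (ν 0)]) zero_le_one
  have hzp : ∀ ν : V d, ‖ν‖ = 1 → (∀ o, |⟪c o - a, ν⟫| ≤ η) →
      ‖zp ν‖ ≤ 8 * d * (η / t) + ‖s0‖ + ‖s1‖ := by
    intro ν hν h
    have h1 : zp ν = nn s0 s1 ν - ν 0 • s0 - ν 1 • s1 := by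
      unfold nn
      abel
    rw [h1]
    have h2 : ‖ν 0 • s0‖ ≤ ‖s0‖ := by
      rw [norm_smul, Real.norm_eq_abs]
      exact mul_le_of_le_one_left (norm_nonneg _) (hab ν hν).1
    have h3 : ‖ν 1 • s1‖ ≤ ‖s1‖ := by
      rw [norm_smul, Real.norm_eq_abs]
      exact mul_le_of_le_one_left (norm_nonneg _) (hab ν hν).2
    have h4 := norm_sub_le (nn s0 s1 ν - ν 0 • s0) (ν 1 • s1)
    have h5 := norm_sub_le (nn s0 s1 ν) (ν 0 • s0)
    linarith [hn ν hν h]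
  have hzp' : ∀ ν : V d, ‖ν‖ = 1 → (∀ o, |⟪c o - a, ν⟫| ≤ η) →
      ‖zp ν‖ ≤ C * (η / t + ‖s0‖ + ‖s1‖) := by
    intro ν hν h
    refine (hzp ν hν h).trans ?_
    have h1 : 8 * d * (η / t) ≤ C * (η / t) := mul_le_mul_of_nonneg_right (by linarith) hηt0
    have h2 : 1 * ‖s0‖ ≤ C * ‖s0‖ := mul_le_mul_of_nonneg_right (by linarith) (norm_nonneg _)
    have h3 : 1 * ‖s1‖ ≤ C * ‖s1‖ := mul_le_mul_of_nonneg_right (by linarith) (norm_nonneg _)
    linarith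
  have hsm8 : ∀ ν : V d, ‖ν‖ = 1 → (∀ o, |⟪c o - a, ν⟫| ≤ η) → ‖zp ν‖ ≤ 1 / 8 := by
    intro ν hν h
    refine (hzp ν hν h).trans ?_
    have h1 : 8 * d * (η / t) ≤ 8 * d * (1 / C) :=
      mul_le_mul_of_nonneg_left hηt' (by positivity)
    have h2 : ‖s0‖ + ‖s1‖ ≤ 1 / C := by linarith [abs_nonneg y0, abs_nonneg y1]
    have h3 : 8 * d * (1 / C) + 1 / C ≤ 1 / 8 := by
      have h4 : 8 * d * (1 / C) + 1 / C = (8 * d + 1) / C := by ring
      rw [h4, div_le_iff₀ hC0]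
      linarith
    linarith
  refine ⟨⟨hzp' ν₁ hν1 fun o => (hca o).1, hzp' ν₂ hν2 fun o => (hca o).2⟩, ?_⟩
  intro x hx
  -- the two equations
  have hM : ∀ ν : V d, ‖ν‖ = 1 → (∀ o, |⟪c o - a, ν⟫| ≤ η) →
      |ν 0 * D0 y0 s0 x + ν 1 * D1 y1 s1 x - ⟪x - a, ν⟫| ≤ (2 + 72 * d) * η := by
    intro ν hν h
    have h1 := diff ν x (c none) y0 y1 s0 s1
    have h2 : ⟪x - c none, ν⟫ = ⟪x - a, ν⟫ - ⟪c none - a, ν⟫ := by
      rw [← inner_sub_left]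
      congr 1
      abel
    have h4 := cs (hun' ν hν) hη (hD none)
    have h6 := h none
    have h7 : |⟪nn s0 s1 ν, zp x - zp (c none)⟫| ≤ 72 * d * η := by
      refine (abs_real_inner_le_norm _ _).trans ?_
      have h8 : ‖zp x - zp (c none)‖ ≤ 9 * t := by
        have h9 : zp x - zp (c none) = (zp x - z') - (zp (c none) - z') := by abel
        rw [h9]
        exact (norm_sub_le _ _).trans (by linarith)
      have h10 : ‖nn s0 s1 ν‖ * ‖zp x - zp (c none)‖ ≤ (8 * d * (η / t)) * (9 * t) :=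
        mul_le_mul (hn ν hν h) h8 (norm_nonneg _) (by positivity)
      refine h10.trans (le_of_eq ?_)
      field_simp
      ring
    rw [h2] at h1
    rw [abs_le] at h4 h6 h7 ⊢
    constructor <;> linarith [h4.1, h4.2, h6.1, h6.2, h7.1, h7.2]
  have hM1 := hM ν₁ hν1 fun o => (hca o).1
  have hM2 := hM ν₂ hν2 fun o => (hca o).2
  have hz1 := hsm8 ν₁ hν1 fun o => (hca o).1
  have hz2 := hsm8 ν₂ hν2 fun o => (hca o).2
  have h12 := inner_V ν₁ ν₂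
  rw [hν12] at h12
  have hr : |⟪zp ν₁, zp ν₂⟫| ≤ 1 / 64 := by
    refine (abs_real_inner_le_norm _ _).trans ?_
    have h := mul_le_mul hz1 hz2 (norm_nonneg _) (by norm_num : (0 : ℝ) ≤ 1 / 8)
    linarith
  have hp1 : ‖zp ν₁‖ ^ 2 ≤ 1 / 64 := by
    have h := pow_le_pow_left₀ (norm_nonneg _) hz1 2
    linarith
  have hp2 : ‖zp ν₂‖ ^ 2 ≤ 1 / 64 := by
    have h := pow_le_pow_left₀ (norm_nonneg _) hz2 2
    linarith
  have h2 := two (X := D0 y0 s0 x) (Y := D1 y1 s1 x) (hun ν₁ hν1) (hun ν₂ hν2) h12.symm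
    (sq_nonneg _) hp1 (sq_nonneg _) hp2 hr
  have hq : ∀ M A : ℝ, |M - A| ≤ (2 + 72 * d) * η → M ^ 2 ≤ 2 * A ^ 2 + 2 * ((2 + 72 * d) * η) ^ 2 := by
    intro M A h
    have h3 : (M - A) ^ 2 ≤ ((2 + 72 * d) * η) ^ 2 := by
      rw [← sq_abs]
      exact pow_le_pow_left₀ (abs_nonneg _) h 2
    nlinarith [sq_nonneg (M - 2 * A)]
  have h3 := hq _ _ hM1
  have h4 := hq _ _ hM2
  show (D0 y0 s0 x) ^ 2 + (D1 y1 s1 x) ^ 2 ≤ 4 * (⟪x - a, ν₁⟫ ^ 2 + ⟪x - a, ν₂⟫ ^ 2) + C * η ^ 2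
  have h5 : C * η ^ 2 = 5 * ((2 + 72 * d) * η) ^ 2 := by
    rw [hCdef]
    ring
  rw [h5]
  nlinarith [sq_nonneg ((2 + 72 * d) * η), sq_nonneg ⟪x - a, ν₁⟫, sq_nonneg ⟪x - a, ν₂⟫]

end

end Pool.Agent.H7.AN
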